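import Mathlib

/-!
# Retracts via closure and anticlosure operators: definitions
-/

namespace Pool.Agent.Work.MP_017791_co

universe u

variable {P : Type u} [PartialOrder P]

/-- A retraction of `P`: an order-preserving idempotent self-map. -/
def IsRetraction (r : P → P) : Prop := Monotone r ∧ ∀ x, r (r x) = r x

/-- `R` is a retract of `P`: the image of a retraction. -/
def IsRetract (R : Set P) : Prop := ∃ r : P → P, IsRetraction r ∧ Set.range r = R

/-- A closure operator: a retraction `φ` with `x ≤ φ x`. -/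
def IsClosureOp (φ : P → P) : Prop := IsRetraction φ ∧ ∀ x, x ≤ φ x

/-- An anticlosure operator: a retraction `ω` with `ω x ≤ x`. -/
def IsAnticlosureOp (ω : P → P) : Prop := IsRetraction ω ∧ ∀ x, ω x ≤ x

/-- `R` comes from a commuting closure-anticlosure pair, with the three displayed equalities. -/
def FromCommutingPair (R : Set P) : Prop :=
  ∃ φ ω : P → P, IsClosureOp φ ∧ IsAnticlosureOp ω ∧ (∀ x, φ (ω x) = ω (φ x)) ∧
    R = Set.range (fun x => φ (ω x)) ∧ R = Set.range (fun x => ω (φ x)) ∧
    R = Set.range φ ∩ Set.range ω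

/-- The same without the requirement that the two operators commute. -/
def FromPair (R : Set P) : Prop :=
  ∃ φ ω : P → P, IsClosureOp φ ∧ IsAnticlosureOp ω ∧
    R = Set.range (fun x => φ (ω x)) ∧ R = Set.range (fun x => ω (φ x)) ∧
    R = Set.range φ ∩ Set.range ω

variable (P) in
/-- Property (C): for nonempty `R`, being a retract is the same as coming from a commuting
closure-anticlosure pair. -/
def PropertyC : Prop := ∀ R : Set P, R.Nonempty → (IsRetract R ↔ FromCommutingPair R)

variable (P) in
/-- The variant of property (C) in which the operators need not commute. -/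
def PropertyC' : Prop := ∀ R : Set P, R.Nonempty → (IsRetract R ↔ FromPair R)

variable (P) in
/-- The order of `P` is a lattice order. -/
def IsLatticeOrder : Prop :=
  ∃ L : Lattice P, L.toPartialOrder = (inferInstance : PartialOrder P)

variable (P) in
/-- The order of `P` is the order of a modular lattice. -/
def IsModularLatticeOrder : Prop :=
  ∃ L : Lattice P, L.toPartialOrder = (inferInstance : PartialOrder P) ∧ @IsModularLattice P L

variable (P) in
/-- Tameness of the gaps of `P`. -/
def Tame : Prop :=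
  ∀ (J K : Set P) (x : P), DirectedOn (· ≤ ·) J → DirectedOn (· ≥ ·) K →
    (∀ j ∈ J, ∀ k ∈ K, j ≤ k) → (¬ ∃ z, (∀ j ∈ J, j ≤ z) ∧ (∀ k ∈ K, z ≤ k)) →
    (∃ j₀ ∈ J, ∀ j ∈ J, j₀ ≤ j → Set.Iic x ∩ Set.Iic j = Set.Iic x ∩ Set.Iic j₀) ∨
    (∃ k₀ ∈ K, ∀ k ∈ K, k ≤ k₀ → Set.Ici x ∩ Set.Ici k = Set.Ici x ∩ Set.Ici k₀)

end Pool.Agent.Work.MP_017791_co
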