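import Mathlib
import Pool.Agent.Work.MP_017791_co.Defs

namespace Pool.Agent.Work.MP_017791_co

universe u

section general

variable {P : Type u} [PartialOrder P]

theorem fromPair_of_commuting {R : Set P} (h : FromCommutingPair R) : FromPair R := by
  obtain ⟨φ, ω, h1, h2, -, h3, h4, h5⟩ := h
  exact ⟨φ, ω, h1, h2, h3, h4, h5⟩

theorem fix_of_mem_range {r : P → P} (hr : IsRetraction r) {x : P} (hx : x ∈ Set.range r) :
    r x = x := by
  obtain ⟨y, rfl⟩ := hx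
  exact hr.2 y

/-- The data extracted from a closure-anticlosure pair. -/
theorem FromPair.data {R : Set P} (h : FromPair R) :
    ∃ φ ω : P → P, Monotone φ ∧ Monotone ω ∧ (∀ x, x ≤ φ x) ∧ (∀ x, ω x ≤ x) ∧
      (∀ x ∈ R, φ x = x) ∧ (∀ x ∈ R, ω x = x) ∧ (∀ x, φ (ω x) ∈ R) ∧ (∀ x, ω (φ x) ∈ R) := by
  obtain ⟨φ, ω, h1, h2, h3, h4, h5⟩ := h
  refine ⟨φ, ω, h1.1.1, h2.1.1, h1.2, h2.2, ?_, ?_, ?_, ?_⟩
  · intro x hx
    rw [h5] at hx
    exact fix_of_mem_range h1.1 hx.1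
  · intro x hx
    rw [h5] at hx
    exact fix_of_mem_range h2.1 hx.2
  · intro x
    rw [h3]
    exact ⟨x, rfl⟩
  · intro x
    rw [h4]
    exact ⟨x, rfl⟩

/-- A set coming from a pair is a retract. -/
theorem FromPair.isRetract {R : Set P} (h : FromPair R) : IsRetract R := by
  have h' := h
  obtain ⟨φ, ω, h1, h2, h3, h4, h5⟩ := h'
  refine ⟨fun x => φ (ω x), ⟨h1.1.1.comp h2.1.1, ?_⟩, h3.symm⟩
  intro x
  have hx : φ (ω x) ∈ R := by rw [h3]; exact ⟨x, rfl⟩
  rw [h5] at hx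
  show φ (ω (φ (ω x))) = φ (ω x)
  rw [fix_of_mem_range h2.1 hx.2, fix_of_mem_range h1.1 hx.1]

theorem propertyC_iff : PropertyC P ↔ ∀ R : Set P, R.Nonempty → IsRetract R →
    FromCommutingPair R := by
  constructor
  · intro h R hR hr
    exact (h R hR).1 hr
  · intro h R hR
    exact ⟨h R hR, fun hc => (fromPair_of_commuting hc).isRetract⟩

theorem propertyC'_iff : PropertyC' P ↔ ∀ R : Set P, R.Nonempty → IsRetract R →
    FromPair R := by
  constructor
  · intro h R hR hr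
    exact (h R hR).1 hr
  · intro h R hR
    exact ⟨h R hR, fun hc => hc.isRetract⟩

theorem PropertyC.weaken (h : PropertyC P) : PropertyC' P := by
  rw [propertyC'_iff]
  intro R hR hr
  exact fromPair_of_commuting ((propertyC_iff.1 h) R hR hr)

/-- The first consequence: every two elements have a least upper bound. -/
theorem exists_lub (h : PropertyC' P) (a b : P) : ∃ s, IsLUB {a, b} s := by
  classical
  have key := (propertyC'_iff.1 h) ({a} ∪ {y | a ≤ y ∧ b ≤ y}) ⟨a, Or.inl rfl⟩ (by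
    refine ⟨fun x => if a ≤ x ∧ b ≤ x then x else a, ⟨?_, ?_⟩, ?_⟩
    · intro x y hxy
      dsimp only
      split_ifs with h1 h2 h2
      · exact hxy
      · exact absurd ⟨h1.1.trans hxy, h1.2.trans hxy⟩ h2
      · exact h2.1
      · exact le_rfl
    · intro x
      dsimp only
      split_ifs with h1 h2
      · rfl
      · rfl
      · rfl
    · ext y
      constructor
      · rintro ⟨x, rfl⟩
        dsimp only
        split_ifs with h1
        · exact Or.inr h1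
        · exact Or.inl rfl
      · rintro (hy | hy)
        · have hy' : y = a := hy
          subst hy'
          refine ⟨y, ?_⟩
          dsimp only
          split_ifs <;> rfl
        · refine ⟨y, ?_⟩
          exact if_pos hy)
  obtain ⟨φ, ω, hφ, hω, hφ1, hω1, hφ2, hω2, h3, h4⟩ := key.data
  have hR : ∀ y ∈ ({a} ∪ {y | a ≤ y ∧ b ≤ y} : Set P), a ≤ y := by
    rintro y (hy | hy)
    · have hy' : y = a := hy
      exact hy'.ge
    · exact hy.1
  refine ⟨φ b, ?_, ?_⟩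
  · intro y hy
    simp only [Set.mem_insert_iff, Set.mem_singleton_iff] at hy
    rcases hy with rfl | rfl
    · exact (hR _ (h4 b)).trans (hω1 _)
    · exact hφ1 y
  · intro y hy
    have h1 : a ≤ y := hy (by simp)
    have h2 : b ≤ y := hy (by simp)
    calc φ b ≤ φ y := hφ h2
      _ = y := hφ2 y (Or.inr ⟨h1, h2⟩)

theorem exists_glb (h : PropertyC' P) (a b : P) : ∃ s, IsGLB {a, b} s := by
  classical
  have key := (propertyC'_iff.1 h) ({a} ∪ {y | y ≤ a ∧ y ≤ b}) ⟨a, Or.inl rfl⟩ (by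
    refine ⟨fun x => if x ≤ a ∧ x ≤ b then x else a, ⟨?_, ?_⟩, ?_⟩
    · intro x y hxy
      dsimp only
      split_ifs with h1 h2 h2
      · exact hxy
      · exact h1.1
      · exact absurd ⟨hxy.trans h2.1, hxy.trans h2.2⟩ h1
      · exact le_rfl
    · intro x
      dsimp only
      split_ifs with h1 h2
      · rfl
      · rfl
      · rfl
    · ext y
      constructor
      · rintro ⟨x, rfl⟩
        dsimp only
        split_ifs with h1
        · exact Or.inr h1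
        · exact Or.inl rfl
      · rintro (hy | hy)
        · have hy' : y = a := hy
          subst hy'
          refine ⟨y, ?_⟩
          dsimp only
          split_ifs <;> rfl
        · refine ⟨y, ?_⟩
          exact if_pos hy)
  obtain ⟨φ, ω, hφ, hω, hφ1, hω1, hφ2, hω2, h3, h4⟩ := key.data
  have hR : ∀ y ∈ ({a} ∪ {y | y ≤ a ∧ y ≤ b} : Set P), y ≤ a := by
    rintro y (hy | hy)
    · have hy' : y = a := hy
      exact hy'.le
    · exact hy.1
  refine ⟨ω b, ?_, ?_⟩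
  · intro y hy
    simp only [Set.mem_insert_iff, Set.mem_singleton_iff] at hy
    rcases hy with rfl | rfl
    · exact (hφ1 _).trans (hR _ (h3 b))
    · exact hω1 y
  · intro y hy
    have h1 : y ≤ a := hy (by simp)
    have h2 : y ≤ b := hy (by simp)
    calc y = ω y := (hω2 y (Or.inr ⟨h1, h2⟩)).symm
      _ ≤ ω b := hω h2

/-- The variant of property (C) already forces a lattice order. -/
theorem isLatticeOrder (h : PropertyC' P) : IsLatticeOrder P := by
  choose s hs using exists_lub h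
  choose i hi using exists_glb h
  exact ⟨{ (inferInstance : PartialOrder P) with
      sup := s
      inf := i
      le_sup_left := fun a b => (hs a b).1 (by simp)
      le_sup_right := fun a b => (hs a b).1 (by simp)
      sup_le := fun a b c h1 h2 => (hs a b).2 (by
        intro y hy
        simp only [Set.mem_insert_iff, Set.mem_singleton_iff] at hy
        rcases hy with rfl | rfl <;> assumption)
      inf_le_left := fun a b => (hi a b).1 (by simp)
      inf_le_right := fun a b => (hi a b).1 (by simp)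
      le_inf := fun a b c h1 h2 => (hi b c).2 (by
        intro y hy
        simp only [Set.mem_insert_iff, Set.mem_singleton_iff] at hy
        rcases hy with rfl | rfl <;> assumption) }, rfl⟩

end general

section lattice

variable {P : Type u} [Lattice P]

/-- A two-element chain is a retract. -/
theorem isRetract_pair {a c : P} (hac : a < c) : IsRetract ({a, c} : Set P) := by
  classical
  refine ⟨fun x => if c ≤ x then c else a, ⟨?_, ?_⟩, ?_⟩
  · intro x y hxy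
    dsimp only
    split_ifs with h1 h2 h2
    · exact le_rfl
    · exact absurd (h1.trans hxy) h2
    · exact hac.le
    · exact le_rfl
  · intro x
    dsimp only
    split_ifs with h1 h2 h2
    · rfl
    · exact absurd le_rfl h2
    · exact absurd h2 (not_le_of_gt hac)
    · rfl
  · ext y
    simp only [Set.mem_insert_iff, Set.mem_singleton_iff, Set.mem_range]
    constructor
    · rintro ⟨x, rfl⟩
      split_ifs <;> simp
    · rintro (rfl | rfl)
      · exact ⟨y, by rw [if_neg (not_le_of_gt hac)]⟩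
      · exact ⟨y, by rw [if_pos le_rfl]⟩

/-- Property (C) forces the modular law. -/
theorem isModularLattice (h : PropertyC P) : IsModularLattice P := by
  refine ⟨?_⟩
  intro a x c hac
  -- goal: (a ⊔ x) ⊓ c ≤ a ⊔ x ⊓ c
  by_contra hne
  set a' := a ⊔ x ⊓ c with ha'
  set c' := (a ⊔ x) ⊓ c with hc'
  have hle : a' ≤ c' := by
    refine sup_le (le_inf le_sup_left hac) (le_inf (inf_le_left.trans le_sup_right) inf_le_right)
  have hlt : a' < c' := lt_of_le_not_ge hle hne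
  obtain ⟨φ, ω, h1, h2, hcomm, h3, h4, h5⟩ :=
    (propertyC_iff.1 h) {a', c'} ⟨a', by simp⟩ (isRetract_pair hlt)
  have hFP : FromPair ({a', c'} : Set P) := ⟨φ, ω, h1, h2, h3, h4, h5⟩
  have fixφ : ∀ y ∈ ({a', c'} : Set P), φ y = y := by
    intro y hy
    rw [h5] at hy
    exact fix_of_mem_range h1.1 hy.1
  have fixω : ∀ y ∈ ({a', c'} : Set P), ω y = y := by
    intro y hy
    rw [h5] at hy
    exact fix_of_mem_range h2.1 hy.2
  have m1 : φ (ω x) ∈ ({a', c'} : Set P) := by rw [h3]; exact ⟨x, rfl⟩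
  have m2 : ω (φ x) ∈ ({a', c'} : Set P) := by rw [h4]; exact ⟨x, rfl⟩
  have lo : ∀ y ∈ ({a', c'} : Set P), a' ≤ y := by
    intro y hy
    simp only [Set.mem_insert_iff, Set.mem_singleton_iff] at hy
    rcases hy with rfl | rfl
    · exact le_rfl
    · exact hle
  have hi : ∀ y ∈ ({a', c'} : Set P), y ≤ c' := by
    intro y hy
    simp only [Set.mem_insert_iff, Set.mem_singleton_iff] at hy
    rcases hy with rfl | rfl
    · exact hle
    · exact le_rfl
  have e1 : c' ≤ φ x := by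
    have : a ⊔ x ≤ φ x := sup_le (le_sup_left.trans ((lo _ m2).trans (h2.2 _))) (h1.2 x)
    exact inf_le_left.trans this
  have e2 : c' ≤ ω (φ x) := by
    calc c' = ω c' := (fixω c' (by simp)).symm
      _ ≤ ω (φ x) := h2.1.1 e1
  have e3 : ω x ≤ a' := by
    have : ω x ≤ x ⊓ c := le_inf (h2.2 x) (((h1.2 _).trans (hi _ m1)).trans inf_le_right)
    exact this.trans le_sup_right
  have e4 : φ (ω x) ≤ a' := by
    calc φ (ω x) ≤ φ a' := h1.1.1 e3
      _ = a' := fixφ a' (by simp)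
  have : c' ≤ a' := e2.trans ((hcomm x).ge.trans e4)
  exact absurd this (not_le_of_gt hlt)

/-- Two retractions `ρ ≤ ρ'` onto `R`, good from below and from above, give a pair. -/
theorem fromPair_of {R : Set P} {ρ ρ' : P → P} (hρ : Monotone ρ) (hρ' : Monotone ρ')
    (hm : ∀ x, ρ x ∈ R) (hm' : ∀ x, ρ' x ∈ R) (hf : ∀ x ∈ R, ρ x = x) (hf' : ∀ x ∈ R, ρ' x = x)
    (hle : ∀ x, ρ x ≤ ρ' x) (hg : ∀ x, ρ (x ⊓ ρ x) = ρ x) (hg' : ∀ x, ρ' (x ⊔ ρ' x) = ρ' x) :
    ∃ φ ω : P → P, IsClosureOp φ ∧ IsAnticlosureOp ω ∧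
      R = Set.range (fun x => φ (ω x)) ∧ R = Set.range (fun x => ω (φ x)) ∧
      R = Set.range φ ∩ Set.range ω ∧ (∀ x, φ (ω x) = ρ x) ∧ (∀ x, ω (φ x) = ρ' x) := by
  have hφ : IsClosureOp (fun x => x ⊔ ρ' x) := by
    refine ⟨⟨fun x y hxy => sup_le_sup hxy (hρ' hxy), fun x => ?_⟩, fun x => le_sup_left⟩
    show (x ⊔ ρ' x) ⊔ ρ' (x ⊔ ρ' x) = x ⊔ ρ' x
    rw [hg']
    exact sup_eq_left.2 le_sup_right
  have hω : IsAnticlosureOp (fun x => x ⊓ ρ x) := by
    refine ⟨⟨fun x y hxy => inf_le_inf hxy (hρ hxy), fun x => ?_⟩, fun x => inf_le_left⟩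
    show (x ⊓ ρ x) ⊓ ρ (x ⊓ ρ x) = x ⊓ ρ x
    rw [hg]
    exact inf_eq_left.2 inf_le_right
  have e1 : ∀ x, (x ⊓ ρ x) ⊔ ρ' (x ⊓ ρ x) = ρ x := by
    intro x
    have h1 : ρ' (x ⊓ ρ x) = ρ x := by
      apply le_antisymm
      · calc ρ' (x ⊓ ρ x) ≤ ρ' (ρ x) := hρ' inf_le_right
          _ = ρ x := hf' _ (hm x)
      · calc ρ x = ρ (x ⊓ ρ x) := (hg x).symm
          _ ≤ ρ' (x ⊓ ρ x) := hle _
    rw [h1]
    exact sup_eq_right.2 inf_le_right
  have e2 : ∀ x, (x ⊔ ρ' x) ⊓ ρ (x ⊔ ρ' x) = ρ' x := by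
    intro x
    have h1 : ρ (x ⊔ ρ' x) = ρ' x := by
      apply le_antisymm
      · calc ρ (x ⊔ ρ' x) ≤ ρ' (x ⊔ ρ' x) := hle _
          _ = ρ' x := hg' x
      · calc ρ' x = ρ (ρ' x) := (hf _ (hm' x)).symm
          _ ≤ ρ (x ⊔ ρ' x) := hρ le_sup_right
    rw [h1]
    exact inf_eq_right.2 le_sup_right
  refine ⟨_, _, hφ, hω, ?_, ?_, ?_, e1, e2⟩
  · ext y
    constructor
    · intro hy
      exact ⟨y, (e1 y).trans (hf y hy)⟩
    · rintro ⟨x, rfl⟩
      show (x ⊓ ρ x) ⊔ ρ' (x ⊓ ρ x) ∈ R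
      rw [e1]
      exact hm x
  · ext y
    constructor
    · intro hy
      exact ⟨y, (e2 y).trans (hf' y hy)⟩
    · rintro ⟨x, rfl⟩
      show (x ⊔ ρ' x) ⊓ ρ (x ⊔ ρ' x) ∈ R
      rw [e2]
      exact hm' x
  · ext y
    constructor
    · intro hy
      refine ⟨⟨y, ?_⟩, ⟨y, ?_⟩⟩
      · show y ⊔ ρ' y = y
        rw [hf' y hy, sup_idem]
      · show y ⊓ ρ y = y
        rw [hf y hy, inf_idem]
    · rintro ⟨h1, h2⟩
      have h1' : y ⊔ ρ' y = y := fix_of_mem_range hφ.1 h1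
      have h2' : y ⊓ ρ y = y := fix_of_mem_range hω.1 h2
      have h3 : ρ' y ≤ y := sup_eq_left.1 h1'
      have h4 : y ≤ ρ y := inf_eq_left.1 h2'
      have h5 : y = ρ y := le_antisymm h4 ((hle y).trans h3)
      rw [h5]
      exact hm y

/-- A good retraction onto `R` gives a commuting pair. -/
theorem fromCommutingPair_of {R : Set P} {ρ : P → P} (hρ : Monotone ρ)
    (hm : ∀ x, ρ x ∈ R) (hf : ∀ x ∈ R, ρ x = x)
    (hg : ∀ x, ρ (x ⊓ ρ x) = ρ x) (hg' : ∀ x, ρ (x ⊔ ρ x) = ρ x) :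
    FromCommutingPair R := by
  obtain ⟨φ, ω, h1, h2, h3, h4, h5, e1, e2⟩ :=
    fromPair_of hρ hρ hm hm hf hf (fun _ => le_rfl) hg hg'
  exact ⟨φ, ω, h1, h2, fun x => (e1 x).trans (e2 x).symm, h3, h4, h5⟩

/-- The elements of `R` that are closed with respect to `x`. -/
def Cl (R : Set P) (x : P) : Set P := {v | v ∈ R ∧ ∀ c ∈ R, c ≤ x ⊔ v → c ≤ v}

/-- If all the sets `Cl R x` have least elements, then `R` comes from a commuting pair
(in a modular lattice). -/
theorem fromCommutingPair_of_least [IsModularLattice P] {R : Set P}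
    (hleast : ∀ x, ∃ v, IsLeast (Cl R x) v) : FromCommutingPair R := by
  choose ρ hρ using hleast
  have hCl : ∀ x v, v ∈ R → (v ∈ Cl R x ↔ ∀ c ∈ R, c ≤ x ⊔ v → c ≤ v) :=
    fun x v hv => ⟨fun h => h.2, fun h => ⟨hv, h⟩⟩
  have hmono : ∀ x y, x ≤ y → Cl R y ⊆ Cl R x := by
    intro x y hxy v hv
    exact ⟨hv.1, fun c hc hcv => hv.2 c hc (hcv.trans (sup_le_sup_right hxy v))⟩
  have hm : ∀ x, ρ x ∈ R := fun x => (hρ x).1.1
  have hmon : Monotone ρ := fun x y hxy => (hρ x).2 (hmono x y hxy (hρ y).1)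
  refine fromCommutingPair_of hmon hm ?_ ?_ ?_
  · intro x hx
    apply le_antisymm
    · exact (hρ x).2 ⟨hx, fun c _ hcx => by rwa [sup_idem] at hcx⟩
    · exact (hρ x).1.2 x hx le_sup_left
  · -- good from below
    intro x
    apply le_antisymm
    · exact hmon inf_le_left |>.trans le_rfl
    · -- ρ (x ⊓ ρ x) is closed with respect to x
      apply (hρ x).2
      set v := ρ x with hv
      set z := ρ (x ⊓ v) with hz
      have hzv : z ≤ v := hmon inf_le_left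
      refine ⟨hm _, fun c hc hcz => ?_⟩
      have h1 : c ≤ v := (hρ x).1.2 c hc (hcz.trans (sup_le_sup_left hzv x))
      have h2 : c ≤ (z ⊔ x) ⊓ v := le_inf (by rwa [sup_comm]) h1
      have h3 : (z ⊔ x) ⊓ v ≤ z ⊔ x ⊓ v := IsModularLattice.sup_inf_le_assoc_of_le x hzv
      exact (hρ (x ⊓ v)).1.2 c hc ((h2.trans h3).trans (by rw [sup_comm]))
  · intro x
    apply le_antisymm
    · apply (hρ (x ⊔ ρ x)).2
      refine ⟨hm x, fun c hc hcx => (hρ x).1.2 c hc ?_⟩
      rwa [sup_assoc, sup_idem] at hcx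
    · exact hmon le_sup_left

/-- Tameness gives least elements of the sets `Cl R x`. -/
theorem exists_isLeast_Cl [IsModularLattice P] (hT : Tame P) {R : Set P} {r : P → P}
    (hr : Monotone r) (hrR : ∀ x, r x ∈ R) (hrf : ∀ x ∈ R, r x = x) (x : P) :
    ∃ v, IsLeast (Cl R x) v := by
  classical
  set J : Set P := {j | j ∈ R ∧ ∀ v ∈ Cl R x, j ≤ v} with hJ
  set K : Set P := {w | w ∈ R ∧ ∀ j ∈ J, j ≤ w} with hK
  have hClK : Cl R x ⊆ K := fun v hv => ⟨hv.1, fun j hj => hj.2 v hv⟩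
  have hstep : ∀ j ∈ J, ∀ c ∈ R, c ≤ x ⊔ j → c ∈ J := by
    intro j hj c hc hcj
    exact ⟨hc, fun v hv => hv.2 c hc (hcj.trans (sup_le_sup_left (hj.2 v hv) x))⟩
  have hJdir : DirectedOn (· ≤ ·) J := by
    intro j₁ h₁ j₂ h₂
    refine ⟨r (j₁ ⊔ j₂), ⟨hrR _, fun v hv => ?_⟩, ?_, ?_⟩
    · calc r (j₁ ⊔ j₂) ≤ r v := hr (sup_le (h₁.2 v hv) (h₂.2 v hv))
        _ = v := hrf v hv.1
    · calc j₁ = r j₁ := (hrf _ h₁.1).symm
        _ ≤ _ := hr le_sup_left
    · calc j₂ = r j₂ := (hrf _ h₂.1).symm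
        _ ≤ _ := hr le_sup_right
  have hKdir : ∀ w₁ ∈ K, ∀ w₂ ∈ K, r (w₁ ⊓ w₂) ∈ K ∧ r (w₁ ⊓ w₂) ≤ w₁ ∧ r (w₁ ⊓ w₂) ≤ w₂ := by
    intro w₁ h₁ w₂ h₂
    refine ⟨⟨hrR _, fun j hj => ?_⟩, ?_, ?_⟩
    · calc j = r j := (hrf _ hj.1).symm
        _ ≤ _ := hr (le_inf (h₁.2 j hj) (h₂.2 j hj))
    · calc r (w₁ ⊓ w₂) ≤ r w₁ := hr inf_le_left
        _ = w₁ := hrf _ h₁.1
    · calc r (w₁ ⊓ w₂) ≤ r w₂ := hr inf_le_right
        _ = w₂ := hrf _ h₂.1
  have hmax : ∀ m, m ∈ J → m ∈ K → IsLeast (Cl R x) m := by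
    intro m hmJ hmK
    refine ⟨⟨hmJ.1, fun c hc hcm => hmK.2 c (hstep m hmJ c hc hcm)⟩, fun v hv => hmJ.2 v hv⟩
  by_cases hz : ∃ z, (∀ j ∈ J, j ≤ z) ∧ (∀ k ∈ K, z ≤ k)
  · obtain ⟨z, hz1, hz2⟩ := hz
    have hmK : r z ∈ K := ⟨hrR z, fun j hj => by
      calc j = r j := (hrf _ hj.1).symm
        _ ≤ r z := hr (hz1 j hj)⟩
    have hmJ : r z ∈ J := ⟨hrR z, fun v hv => by
      calc r z ≤ r v := hr (hz2 v (hClK hv))
        _ = v := hrf _ hv.1⟩
    exact ⟨r z, hmax _ hmJ hmK⟩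
  · rcases hT J K x hJdir (fun w₁ h₁ w₂ h₂ => ⟨r (w₁ ⊓ w₂), (hKdir w₁ h₁ w₂ h₂).1,
      (hKdir w₁ h₁ w₂ h₂).2.1, (hKdir w₁ h₁ w₂ h₂).2.2⟩)
      (fun j hj k hk => hk.2 j hj) hz with ⟨j₀, hj₀, hconst⟩ | ⟨k₀, hk₀, hconst⟩
    · refine ⟨j₀, ⟨hj₀.1, fun c hc hcj => ?_⟩, fun v hv => hj₀.2 v hv⟩
      have hcJ : c ∈ J := hstep j₀ hj₀ c hc hcj
      obtain ⟨j', hj', hj0', hcj'⟩ := hJdir j₀ hj₀ c hcJ
      have hI := hconst j' hj' hj0'
      have hxj : x ⊓ j' ≤ j₀ := by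
        have : x ⊓ j' ∈ Set.Iic x ∩ Set.Iic j' := ⟨inf_le_left, inf_le_right⟩
        rw [hI] at this
        exact this.2
      have h2 : c ≤ (j₀ ⊔ x) ⊓ j' := le_inf (by rwa [sup_comm]) hcj'
      have h3 : (j₀ ⊔ x) ⊓ j' ≤ j₀ ⊔ x ⊓ j' := IsModularLattice.sup_inf_le_assoc_of_le x hj0'
      exact (h2.trans h3).trans (sup_le le_rfl hxj)
    · refine ⟨k₀, hmax k₀ ⟨hk₀.1, fun v hv => ?_⟩ hk₀⟩
      have hvK := hClK hv
      obtain ⟨hw, hw1, hw2⟩ := hKdir v hvK k₀ hk₀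
      have hI := hconst _ hw hw2
      have : x ⊔ r (v ⊓ k₀) ∈ Set.Ici x ∩ Set.Ici k₀ := by
        rw [← hI]
        exact ⟨le_sup_left, le_sup_right⟩
      exact hv.2 k₀ hk₀.1 (this.2.trans (sup_le_sup_left hw1 x))

/-- Modular and tame implies property (C). -/
theorem propertyC_of_tame [IsModularLattice P] (hT : Tame P) : PropertyC P := by
  rw [propertyC_iff]
  rintro R hR ⟨r, hr, rfl⟩
  have hrf : ∀ x ∈ Set.range r, r x = x := fun x hx => fix_of_mem_range hr hx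
  have hrR : ∀ x, r x ∈ Set.range r := fun x => ⟨x, rfl⟩
  exact fromCommutingPair_of_least (fun x => exists_isLeast_Cl hT hr.1 hrR hrf x)

end lattice

end Pool.Agent.Work.MP_017791_co
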