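import Mathlib
import Pool.Agent.Work.MP_017791_co.Defs
import Pool.Agent.Work.MP_017791_co.Core

namespace Pool.Agent.Work.MP_017791_co

universe u

section gap

variable {P : Type u} [PartialOrder P]

/-- A well-founded chain `J` below a dually well-founded chain `K`, with no element of `P` in
between, form together a retract. -/
theorem isRetract_gap {J K : Set P} (hJ : IsChain (· ≤ ·) J) (hK : IsChain (· ≤ ·) K)
    (hJw : J.WellFoundedOn (· < ·)) (hKw : K.WellFoundedOn (· > ·))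
    (hJK : ∀ j ∈ J, ∀ k ∈ K, j ≤ k)
    (hgap : ¬ ∃ z, (∀ j ∈ J, j ≤ z) ∧ (∀ k ∈ K, z ≤ k)) : IsRetract (J ∪ K) := by
  classical
  -- least elements of nonempty subsets of J
  have minJ : ∀ S ⊆ J, S.Nonempty → ∃ m, IsLeast S m := by
    intro S hS hne
    obtain ⟨m, hm, hmin⟩ := (hJw.mono (fun _ _ h => h) hS).has_min
      (Set.univ : Set S) (by obtain ⟨s, hs⟩ := hne; exact ⟨⟨s, hs⟩, trivial⟩)
    refine ⟨m, m.2, fun s hs => ?_⟩
    have h1 : ¬ s < (m : P) := hmin ⟨s, hs⟩ trivial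
    rcases hJ.total (hS hs) (hS m.2) with h | h
    · exact (eq_of_le_of_not_lt h h1).ge
    · exact h
  have maxK : ∀ S ⊆ K, S.Nonempty → ∃ m, IsGreatest S m := by
    intro S hS hne
    obtain ⟨m, hm, hmin⟩ := (hKw.mono (fun _ _ h => h) hS).has_min
      (Set.univ : Set S) (by obtain ⟨s, hs⟩ := hne; exact ⟨⟨s, hs⟩, trivial⟩)
    refine ⟨m, m.2, fun s hs => ?_⟩
    have h1 : ¬ s > (m : P) := hmin ⟨s, hs⟩ trivial
    rcases hK.total (hS hs) (hS m.2) with h | h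
    · exact h
    · exact (eq_of_le_of_not_lt h h1).ge
  have up : ∀ y, (∀ j ∈ J, j ≤ y) → ∃ m, IsGreatest {k | k ∈ K ∧ ∀ s ∈ K, y ≤ s → k ≤ s} m := by
    intro y hy
    apply maxK _ (fun k hk => hk.1)
    have : ¬ ∀ k ∈ K, y ≤ k := fun h => hgap ⟨y, hy, h⟩
    push Not at this
    obtain ⟨k, hk, hyk⟩ := this
    refine ⟨k, hk, fun s hs hys => ?_⟩
    rcases hK.total hk hs with h | h
    · exact h
    · exact absurd (hys.trans h) hyk
  have dn : ∀ y, ¬ (∀ j ∈ J, j ≤ y) → ∃ m, IsLeast {j | j ∈ J ∧ ∀ s ∈ J, s ≤ y → s ≤ j} m := by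
    intro y hy
    apply minJ _ (fun k hk => hk.1)
    push Not at hy
    obtain ⟨j, hj, hyj⟩ := hy
    refine ⟨j, hj, fun s hs hys => ?_⟩
    rcases hJ.total hj hs with h | h
    · exact absurd (h.trans hys) hyj
    · exact h
  choose f hf using up
  choose g hg using dn
  refine ⟨fun y => if h : ∀ j ∈ J, j ≤ y then f y h else g y h, ⟨?_, ?_⟩, ?_⟩
  · intro y y' hyy
    dsimp only
    split_ifs with h1 h2 h2
    · apply (hf y' h2).2
      exact ⟨(hf y h1).1.1, fun s hs hys => (hf y h1).1.2 s hs (hyy.trans hys)⟩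
    · exact absurd (fun j hj => (h1 j hj).trans hyy) h2
    · exact hJK _ (hg y h1).1.1 _ (hf y' h2).1.1
    · apply (hg y h1).2
      exact ⟨(hg y' h2).1.1, fun s hs hys => (hg y' h2).1.2 s hs (hys.trans hyy)⟩
  all_goals
    have fixK : ∀ y ∈ K, (if h : ∀ j ∈ J, j ≤ y then f y h else g y h) = y := by
      intro y hy
      have h1 : ∀ j ∈ J, j ≤ y := fun j hj => hJK j hj y hy
      rw [dif_pos h1]
      apply le_antisymm
      · exact (hf y h1).1.2 y hy le_rfl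
      · exact (hf y h1).2 ⟨hy, fun s _ hs => hs⟩
    have fixJ : ∀ y ∈ J, (if h : ∀ j ∈ J, j ≤ y then f y h else g y h) = y := by
      intro y hy
      have h1 : ¬ ∀ j ∈ J, j ≤ y := fun h => hgap ⟨y, h, fun k hk => hJK y hy k hk⟩
      rw [dif_neg h1]
      apply le_antisymm
      · exact (hg y h1).2 ⟨hy, fun s _ hs => hs⟩
      · exact (hg y h1).1.2 y hy le_rfl
  · intro y
    dsimp only
    have hmem : (if h : ∀ j ∈ J, j ≤ y then f y h else g y h) ∈ J ∨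
        (if h : ∀ j ∈ J, j ≤ y then f y h else g y h) ∈ K := by
      split_ifs with h1
      · exact Or.inr (hf y h1).1.1
      · exact Or.inl (hg y h1).1.1
    rcases hmem with h | h
    · exact fixJ _ h
    · exact fixK _ h
  · ext y
    constructor
    · rintro ⟨x, rfl⟩
      dsimp only
      split_ifs with h1
      · exact Or.inr (hf x h1).1.1
      · exact Or.inl (hg x h1).1.1
    · rintro (h | h)
      · exact ⟨y, fixJ y h⟩
      · exact ⟨y, fixK y h⟩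

end gap

section lattice

variable {P : Type u} [Lattice P]

theorem exists_greatest {R : Set P} (h : FromPair R) (x : P) :
    ∃ v, IsGreatest {w | w ∈ R ∧ w ≤ x ⊔ v} v := by
  obtain ⟨φ, ω, hφ, hω, hφ1, hω1, hφ2, hω2, h3, h4⟩ := h.data
  refine ⟨ω (φ x), ⟨h4 x, le_sup_right⟩, ?_⟩
  rintro w ⟨hw, hwx⟩
  have h1 : w ≤ φ x := hwx.trans (sup_le (hφ1 x) (hω1 _))
  calc w = ω w := (hω2 w hw).symm
    _ ≤ ω (φ x) := hω h1

theorem exists_least {R : Set P} (h : FromPair R) (x : P) :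
    ∃ v, IsLeast {w | w ∈ R ∧ x ⊓ v ≤ w} v := by
  obtain ⟨φ, ω, hφ, hω, hφ1, hω1, hφ2, hω2, h3, h4⟩ := h.data
  refine ⟨φ (ω x), ⟨h3 x, inf_le_right⟩, ?_⟩
  rintro w ⟨hw, hwx⟩
  have h1 : ω x ≤ w := (le_inf (hω1 x) (hφ1 _)).trans hwx
  calc φ (ω x) ≤ φ w := hφ h1
    _ = w := hφ2 w hw

theorem exists_both {R : Set P} (h : FromCommutingPair R) (x : P) :
    ∃ v, IsGreatest {w | w ∈ R ∧ w ≤ x ⊔ v} v ∧ IsLeast {w | w ∈ R ∧ x ⊓ v ≤ w} v := by
  obtain ⟨φ, ω, h1, h2, hcomm, h3, h4, h5⟩ := h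
  have fixφ : ∀ y ∈ R, φ y = y := by
    intro y hy
    rw [h5] at hy
    exact fix_of_mem_range h1.1 hy.1
  have fixω : ∀ y ∈ R, ω y = y := by
    intro y hy
    rw [h5] at hy
    exact fix_of_mem_range h2.1 hy.2
  have m1 : φ (ω x) ∈ R := by rw [h3]; exact ⟨x, rfl⟩
  have m2 : ω (φ x) ∈ R := by rw [h4]; exact ⟨x, rfl⟩
  refine ⟨ω (φ x), ⟨⟨m2, le_sup_right⟩, ?_⟩, ⟨⟨m2, inf_le_right⟩, ?_⟩⟩
  · rintro w ⟨hw, hwx⟩
    have h1' : w ≤ φ x := hwx.trans (sup_le (h1.2 x) (h2.2 _))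
    calc w = ω w := (fixω w hw).symm
      _ ≤ ω (φ x) := h2.1.1 h1'
  · rintro w ⟨hw, hwx⟩
    rw [← hcomm x] at hwx ⊢
    have h1' : ω x ≤ w := (le_inf (h2.2 x) (h1.2 _)).trans hwx
    calc φ (ω x) ≤ φ w := h1.1.1 h1'
      _ = w := fixφ w hw

end lattice

section example_

/-- A lexicographically increasing bounded family of reals. -/
noncomputable def bb (p : ℕ ×ₗ ℕ) : ℝ :=
  -((1 / 2 : ℝ) ^ (ofLex p).1 * (1 + 1 / ((ofLex p).2 + 1)))

noncomputable def aa (p : ℕ ×ₗ ℕ) : ℝ × ℝ := (((ofLex p).1 : ℝ), bb p)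

theorem bb_strictMono : StrictMono bb := by
  intro p q hpq
  rw [Prod.Lex.lt_iff] at hpq
  unfold bb
  have hpos : ∀ n : ℕ, (0 : ℝ) < (1 / 2 : ℝ) ^ n := fun n => by positivity
  apply neg_lt_neg
  rcases hpq with h | ⟨h1, h2⟩
  · have e1 : (1 / 2 : ℝ) ^ (ofLex q).1 ≤ (1 / 2 : ℝ) ^ ((ofLex p).1 + 1) :=
      pow_le_pow_of_le_one (by norm_num) (by norm_num) h
    have e2 : (1 : ℝ) / ((ofLex q).2 + 1) ≤ 1 := by
      rw [div_le_one (by positivity)]
      have : (0 : ℝ) ≤ (ofLex q).2 := by positivity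
      linarith
    have e3 : (0 : ℝ) < 1 / ((ofLex p).2 + 1) := by positivity
    calc (1 / 2 : ℝ) ^ (ofLex q).1 * (1 + 1 / ((ofLex q).2 + 1))
        ≤ (1 / 2 : ℝ) ^ ((ofLex p).1 + 1) * 2 := by
          apply mul_le_mul e1 (by linarith) (by positivity) (by positivity)
      _ = (1 / 2 : ℝ) ^ (ofLex p).1 * 1 := by rw [pow_succ]; ring
      _ < (1 / 2 : ℝ) ^ (ofLex p).1 * (1 + 1 / ((ofLex p).2 + 1)) := by
          apply mul_lt_mul_of_pos_left _ (hpos _)
          linarith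
  · rw [h1]
    apply mul_lt_mul_of_pos_left _ (hpos _)
    have : (1 : ℝ) / ((ofLex q).2 + 1) < 1 / ((ofLex p).2 + 1) := by
      apply one_div_lt_one_div_of_lt (by positivity)
      have : ((ofLex p).2 : ℝ) < (ofLex q).2 := by exact_mod_cast h2
      linarith
    linarith

theorem aa_strictMono : StrictMono aa := by
  intro p q hpq
  have h1 := bb_strictMono hpq
  rw [Prod.Lex.lt_iff] at hpq
  have h2 : ((ofLex p).1 : ℝ) ≤ (ofLex q).1 := by
    rcases hpq with h | h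
    · exact_mod_cast h.le
    · rw [h.1]
  refine lt_of_le_of_ne ⟨h2, h1.le⟩ ?_
  intro h
  have := congrArg Prod.snd h
  exact h1.ne this

theorem not_propertyC'_real : ¬ PropertyC' (ℝ × ℝ) := by
  intro hC
  have hchain : IsChain (· ≤ ·) (Set.range aa) := by
    rintro _ ⟨p, rfl⟩ _ ⟨q, rfl⟩ _
    rcases le_total p q with h | h
    · exact Or.inl (aa_strictMono.monotone h)
    · exact Or.inr (aa_strictMono.monotone h)
  have hwf : (Set.range aa).WellFoundedOn (· < ·) := by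
    rw [Set.wellFoundedOn_range]
    have : Function.onFun (· < ·) aa = ((· < ·) : ℕ ×ₗ ℕ → ℕ ×ₗ ℕ → Prop) := by
      funext p q
      exact propext aa_strictMono.lt_iff_lt
    rw [this]
    exact wellFounded_lt
  have hgap : ¬ ∃ z : ℝ × ℝ, (∀ j ∈ Set.range aa, j ≤ z) ∧ (∀ k ∈ (∅ : Set (ℝ × ℝ)), z ≤ k) := by
    rintro ⟨z, hz, -⟩
    obtain ⟨n, hn⟩ := exists_nat_gt z.1
    have := (hz _ ⟨toLex (n, 0), rfl⟩).1
    exact absurd this (not_le_of_gt hn)
  have hret := isRetract_gap hchain (by simp [IsChain]) hwf (by simp)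
    (by simp) hgap
  rw [Set.union_empty] at hret
  have hpair := (propertyC'_iff.1 hC) (Set.range aa) ⟨_, ⟨toLex (0, 0), rfl⟩⟩ hret
  obtain ⟨v, ⟨⟨p, rfl⟩, -⟩, hmax⟩ := exists_greatest hpair ((0 : ℝ), (0 : ℝ))
  set q : ℕ ×ₗ ℕ := toLex ((ofLex p).1, (ofLex p).2 + 1) with hq
  have hpq : p < q := by
    rw [Prod.Lex.lt_iff]
    right
    exact ⟨rfl, Nat.lt_succ_self _⟩
  have hle : aa q ≤ ((0 : ℝ), (0 : ℝ)) ⊔ aa p := by
    constructor
    · exact le_sup_right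
    · apply le_trans _ (le_sup_left : (0 : ℝ) ≤ _)
      show bb q ≤ 0
      unfold bb
      rw [neg_nonpos]
      positivity
  have h1 := hmax ⟨⟨q, rfl⟩, hle⟩
  exact absurd h1 (not_le_of_gt (aa_strictMono hpq))

end example_

end Pool.Agent.Work.MP_017791_co
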