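import Mathlib
import Pool.Agent.Work.MP_017791_co.Defs
import Pool.Agent.Work.MP_017791_co.Core

namespace Pool.Agent.Work.MP_017791_co

universe u

section tame

variable {P : Type u} [PartialOrder P]

theorem tame_of_complete (h : ∀ S : Set P, ∃ s, IsLUB S s) : Tame P := by
  intro J K x _ _ hJK hz
  exfalso
  obtain ⟨s, hs⟩ := h J
  exact hz ⟨s, fun j hj => hs.1 hj, fun k hk => hs.2 (fun j hj => hJK j hj k hk)⟩

theorem tame_of_chain (h : ∀ a b : P, a ≤ b ∨ b ≤ a) : Tame P := by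
  classical
  intro J K x _ _ _ hz
  by_cases h1 : ∀ j ∈ J, j ≤ x
  · right
    have h2 : ¬ ∀ k ∈ K, x ≤ k := fun h2 => hz ⟨x, h1, h2⟩
    push Not at h2
    obtain ⟨k₀, hk₀, hk⟩ := h2
    have hk0x : k₀ ≤ x := (h x k₀).resolve_left hk
    refine ⟨k₀, hk₀, fun k hk' hkk => ?_⟩
    ext y
    constructor
    · rintro ⟨hy1, hy2⟩
      exact ⟨hy1, hk0x.trans hy1⟩
    · rintro ⟨hy1, hy2⟩
      exact ⟨hy1, hkk.trans hy2⟩
  · left
    push Not at h1
    obtain ⟨j₀, hj₀, hj⟩ := h1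
    have hxj : x ≤ j₀ := (h x j₀).resolve_right hj
    refine ⟨j₀, hj₀, fun j hj' hjj => ?_⟩
    ext y
    constructor
    · rintro ⟨hy1, hy2⟩
      exact ⟨hy1, hy1.trans hxj⟩
    · rintro ⟨hy1, hy2⟩
      exact ⟨hy1, hy2.trans hjj⟩

theorem tame_of_finite [Finite P] : Tame P := by
  classical
  intro J K x hJ hK hJK hz
  exfalso
  rcases J.eq_empty_or_nonempty with rfl | hne
  · rcases K.eq_empty_or_nonempty with rfl | hne'
    · exact hz ⟨x, by simp, by simp⟩
    · obtain ⟨m, hm, hmin⟩ := (Set.toFinite K).exists_minimal hne'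
      refine hz ⟨m, by simp, fun k hk => ?_⟩
      obtain ⟨w, hw, hw1, hw2⟩ := hK m hm k hk
      exact (hmin hw hw1).trans hw2
  · obtain ⟨m, hm, hmax⟩ := (Set.toFinite J).exists_maximal hne
    refine hz ⟨m, fun j hj => ?_, fun k hk => hJK m hm k hk⟩
    obtain ⟨w, hw, hw1, hw2⟩ := hJ m hm j hj
    exact hw2.trans (hmax hw hw1)

end tame

section tame2

theorem tame_of_intervals {P : Type u} [Lattice P]
    (h : ∀ a b : P, WellFoundedGT (Set.Icc a b) ∧ WellFoundedLT (Set.Icc a b)) : Tame P := by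
  classical
  intro J K x hJ hK hJK hz
  rcases J.eq_empty_or_nonempty with rfl | ⟨j₀, hj₀⟩
  · rcases K.eq_empty_or_nonempty with rfl | ⟨k₀, hk₀⟩
    · exact absurd ⟨x, by simp, by simp⟩ hz
    · right
      have := (h x (x ⊔ k₀)).2
      -- minimal value of x ⊔ k
      obtain ⟨m, ⟨k₁, hk₁, hk10, hmk⟩, hmin⟩ := WellFounded.has_min
        (wellFounded_lt : WellFounded ((· < ·) : Set.Icc x (x ⊔ k₀) → Set.Icc x (x ⊔ k₀) → Prop))
        {y | ∃ k ∈ K, k ≤ k₀ ∧ (y : P) = x ⊔ k}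
        ⟨⟨x ⊔ k₀, le_sup_left, le_rfl⟩, k₀, hk₀, le_rfl, rfl⟩
      refine ⟨k₁, hk₁, fun k hk hkk => ?_⟩
      have hle : x ⊔ k ≤ x ⊔ k₁ := sup_le_sup_left hkk x
      have heq : x ⊔ k = x ⊔ k₁ := by
        by_contra hne
        have hlt : x ⊔ k < x ⊔ k₁ := lt_of_le_of_ne hle hne
        refine hmin ⟨x ⊔ k, le_sup_left, sup_le_sup_left (hkk.trans hk10) x⟩
          ⟨k, hk, hkk.trans hk10, rfl⟩ ?_
        rw [← Subtype.coe_lt_coe, hmk]
        exact hlt
      ext y
      simp only [Set.mem_inter_iff, Set.mem_Ici]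
      rw [← sup_le_iff, heq, sup_le_iff]
  · left
    have := (h (x ⊓ j₀) x).1
    obtain ⟨m, ⟨j₁, hj₁, hj10, hmj⟩, hmax⟩ := WellFounded.has_min
      (wellFounded_gt : WellFounded ((· > ·) : Set.Icc (x ⊓ j₀) x → Set.Icc (x ⊓ j₀) x → Prop))
      {y | ∃ j ∈ J, j₀ ≤ j ∧ (y : P) = x ⊓ j}
      ⟨⟨x ⊓ j₀, le_rfl, inf_le_left⟩, j₀, hj₀, le_rfl, rfl⟩
    refine ⟨j₁, hj₁, fun j hj hjj => ?_⟩
    have hle : x ⊓ j₁ ≤ x ⊓ j := inf_le_inf_left x hjj
    have heq : x ⊓ j = x ⊓ j₁ := by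
      by_contra hne
      have hlt : x ⊓ j₁ < x ⊓ j := lt_of_le_of_ne hle (Ne.symm hne)
      refine hmax ⟨x ⊓ j, inf_le_inf_left x (hj10.trans hjj), inf_le_left⟩
        ⟨j, hj, hj10.trans hjj, rfl⟩ ?_
      show m < _
      rw [← Subtype.coe_lt_coe, hmj]
      exact hlt
    ext y
    simp only [Set.mem_inter_iff, Set.mem_Iic]
    rw [← le_inf_iff, heq, le_inf_iff]

end tame2

section complete

theorem isLeast_good {P : Type u} [Lattice P] {R : Set P} {ρ : P → P}
    (hρ : ∀ x, IsLeast (Cl R x) (ρ x)) :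
    Monotone ρ ∧ (∀ x, ρ x ∈ R) ∧ (∀ x ∈ R, ρ x = x) ∧ (∀ x, ρ (x ⊔ ρ x) = ρ x) := by
  have hmono : ∀ x y, x ≤ y → Cl R y ⊆ Cl R x := by
    intro x y hxy v hv
    exact ⟨hv.1, fun c hc hcv => hv.2 c hc (hcv.trans (sup_le_sup_right hxy v))⟩
  have hm : ∀ x, ρ x ∈ R := fun x => (hρ x).1.1
  have hmon : Monotone ρ := fun x y hxy => (hρ x).2 (hmono x y hxy (hρ y).1)
  refine ⟨hmon, hm, ?_, ?_⟩
  · intro x hx
    apply le_antisymm
    · exact (hρ x).2 ⟨hx, fun c _ hcx => by rwa [sup_idem] at hcx⟩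
    · exact (hρ x).1.2 x hx le_sup_left
  · intro x
    apply le_antisymm
    · apply (hρ (x ⊔ ρ x)).2
      refine ⟨hm x, fun c hc hcx => (hρ x).1.2 c hc ?_⟩
      rwa [sup_assoc, sup_idem] at hcx
    · exact hmon le_sup_left

/-- Complete lattices have the noncommuting variant of property (C). -/
theorem propertyC'_of_completeLattice (P : Type u) [CompleteLattice P] : PropertyC' P := by
  rw [propertyC'_iff]
  rintro R hR ⟨r, hr, rfl⟩
  have hrf : ∀ x ∈ Set.range r, r x = x := fun x hx => fix_of_mem_range hr hx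
  have hrR : ∀ x, r x ∈ Set.range r := fun x => ⟨x, rfl⟩
  have hleast : ∀ x, IsLeast (Cl (Set.range r) x) (r (sInf (Cl (Set.range r) x))) := by
    intro x
    have hle : ∀ v ∈ Cl (Set.range r) x, r (sInf (Cl (Set.range r) x)) ≤ v := by
      intro v hv
      calc r (sInf (Cl (Set.range r) x)) ≤ r v := hr.1 (sInf_le hv)
        _ = v := hrf v hv.1
    refine ⟨⟨hrR _, fun c hc hcm => ?_⟩, hle⟩
    have h1 : c ≤ sInf (Cl (Set.range r) x) := by
      apply le_sInf
      intro v hv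
      exact hv.2 c hc (hcm.trans (sup_le_sup_left (hle v hv) x))
    calc c = r c := (hrf c hc).symm
      _ ≤ _ := hr.1 h1
  obtain ⟨hmon', hm', hf', hg'⟩ := isLeast_good hleast
  set ρ : P → P := fun x => r (sSup {c | c ∈ Set.range r ∧ c ≤ x}) with hρdef
  have hmem : ∀ x c, c ∈ Set.range r → c ≤ x → c ≤ ρ x := by
    intro x c hc hcx
    have h1 : c ≤ sSup {c | c ∈ Set.range r ∧ c ≤ x} := le_sSup ⟨hc, hcx⟩
    calc c = r c := (hrf c hc).symm
      _ ≤ ρ x := hr.1 h1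
  have hmon : Monotone ρ := by
    intro x y hxy
    exact hr.1 (sSup_le_sSup (fun c hc => ⟨hc.1, hc.2.trans hxy⟩))
  have hf : ∀ x ∈ Set.range r, ρ x = x := by
    intro x hx
    apply le_antisymm
    · calc ρ x ≤ r x := hr.1 (sSup_le (fun c hc => hc.2))
        _ = x := hrf x hx
    · exact hmem x x hx le_rfl
  have hg : ∀ x, ρ (x ⊓ ρ x) = ρ x := by
    intro x
    apply le_antisymm
    · exact hmon inf_le_left
    · apply hr.1
      apply sSup_le_sSup
      intro c hc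
      exact ⟨hc.1, le_inf hc.2 (hmem x c hc.1 hc.2)⟩
  have hle : ∀ x, ρ x ≤ r (sInf (Cl (Set.range r) x)) := by
    intro x
    have h1 : sSup {c | c ∈ Set.range r ∧ c ≤ x} ≤ r (sInf (Cl (Set.range r) x)) := by
      apply sSup_le
      intro c hc
      exact (hleast x).1.2 c hc.1 (hc.2.trans le_sup_left)
    calc ρ x ≤ r (r (sInf (Cl (Set.range r) x))) := hr.1 h1
      _ = _ := hr.2 _
  obtain ⟨φ, ω, h1, h2, h3, h4, h5, -, -⟩ :=
    fromPair_of hmon hmon' (fun x => hrR _) hm' hf hf' hle hg hg'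
  exact ⟨φ, ω, h1, h2, h3, h4, h5⟩

/-- A poset in which every subset has a least upper bound carries a complete lattice. -/
theorem exists_completeLattice {P : Type u} [i : PartialOrder P]
    (h : ∀ S : Set P, ∃ s, IsLUB S s) :
    ∃ L : CompleteLattice P, L.toLattice.toPartialOrder = i := by
  classical
  choose s hs using h
  letI : SupSet P := ⟨s⟩
  exact ⟨completeLatticeOfSup P hs, rfl⟩

theorem propertyC'_of_complete {P : Type u} [i : PartialOrder P]
    (h : ∀ S : Set P, ∃ s, IsLUB S s) : PropertyC' P := by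
  obtain ⟨L, hL⟩ := exists_completeLattice h
  subst hL
  exact propertyC'_of_completeLattice P

theorem exists_lub_of_finite {P : Type u} [Lattice P] [Finite P] [Nonempty P] (S : Set P) :
    ∃ s, IsLUB S s := by
  classical
  letI := Fintype.ofFinite P
  letI : BoundedOrder P := Fintype.toBoundedOrder P
  letI : CompleteLattice P := Fintype.toCompleteLattice P
  exact ⟨sSup S, isLUB_sSup S⟩

end complete

end Pool.Agent.Work.MP_017791_co
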